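import Pool.Agent.H378Z.Digits3

set_option autoImplicit false

namespace Pool.Agent.Results.MP_fcf9e8_nt.ANearPower

/-- For every base `b ≥ 2`, some `n ≤ N` with base-`b` digits in `{0, 1}` has
`‖γ n‖ ≤ C exp (-c log N / (log log N) ^ 2)`. -/
theorem result (b : ℕ) (hb : 2 ≤ b) : ∃ c C : ℝ, 0 < c ∧ 0 < C ∧ ∀ N : ℕ, 3 ≤ N → ∀ γ : ℝ,
    ∃ J : Finset ℕ, J.Nonempty ∧ ∑ j ∈ J, b ^ j ≤ N ∧
      |γ * (∑ j ∈ J, b ^ j : ℕ) - round (γ * (∑ j ∈ J, b ^ j : ℕ))| ≤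
        C * Real.exp (-c * Real.log N / (Real.log (Real.log N)) ^ 2) :=
  Pool.Agent.H378Z.Digits.main b hb

end Pool.Agent.Results.MP_fcf9e8_nt.ANearPower
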